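import Mathlib

/-!
# Trivalent graphs with a prescribed automorphism group: the constant is `2`

For a finite group `G` of order `n` with a minimum generating set of `d ≥ 1` elements there is a
trivalent graph with `(2 d + 8) n` vertices whose automorphism group is isomorphic to `G`.

The graph is a regular covering, with group `G`, of a base graph with `2 d + 8` vertices.  The labels
`0, …, 7` form an asymmetric core with exactly one triangle, two paths `8, 10, …` and `9, 11, …` start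
at the core, and the `i`-th vertices of the two paths are joined by an edge which carries the `i`-th
generator.  The last vertices of the two paths are also joined by an edge without voltage.
-/

set_option autoImplicit false

namespace Pool.Agent.Results.MP_b549f0_co.TwoPlusEpsilon

/-- Some trivalent simple graph with exactly `N` vertices has automorphism group isomorphic
to `G`. -/
def Represents (G : Type) [Group G] (N : ℕ) : Prop :=
  ∃ (V : Type) (_ : Fintype V) (X : SimpleGraph V), Fintype.card V = N ∧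
    (∀ v, (X.neighborSet v).ncard = 3) ∧ Nonempty ((X ≃g X) ≃* G)

variable {G : Type} [Group G]

/-- edges of the base graph without voltage, from the smaller to the larger label -/
def I (N k l : ℕ) : Prop :=
  (k = 0 ∧ l = 2) ∨ (k = 0 ∧ l = 3) ∨ (k = 1 ∧ l = 2) ∨ (k = 1 ∧ l = 4) ∨ (k = 2 ∧ l = 5) ∨
  (k = 3 ∧ l = 5) ∨ (k = 3 ∧ l = 6) ∨ (k = 4 ∧ l = 6) ∨ (k = 4 ∧ l = 7) ∨ (k = 5 ∧ l = 7) ∨
  (k = 6 ∧ l = 7) ∨ (k = 0 ∧ l = 8) ∨ (k = 1 ∧ l = 9) ∨ (8 ≤ k ∧ l = k + 2) ∨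
  (k + 2 = N ∧ l + 1 = N)

/-- edges of the base graph with voltage -/
def C (k l : ℕ) : Prop := 8 ≤ k ∧ k % 2 = 0 ∧ l = k + 1

/-- the covering graph -/
def X (N : ℕ) (x : ℕ → G) : SimpleGraph (G × Fin N) where
  Adj v w := (v.1 = w.1 ∧ (I N v.2 w.2 ∨ I N w.2 v.2)) ∨
    (C v.2 w.2 ∧ w.1 = v.1 * x v.2) ∨ (C w.2 v.2 ∧ v.1 = w.1 * x w.2)
  symm := ⟨by
    rintro v w (h | h | h)
    · exact Or.inl ⟨h.1.symm, h.2.symm⟩
    · exact Or.inr (Or.inr h)
    · exact Or.inr (Or.inl h)⟩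
  loopless := ⟨by
    rintro v (h | h | h)
    · have := h.2
      unfold I at this
      omega
    · have := h.1
      unfold C at this
      omega
    · have := h.1
      unfold C at this
      omega⟩

/-- adjacency of labels -/
def B (N k l : ℕ) : Prop := l < N ∧ (I N k l ∨ I N l k ∨ C k l ∨ C l k)

/-! ### The degrees -/

theorem adj_iff (N : ℕ) (x : ℕ → G) (g h : G) (k l : Fin N) :
    (X N x).Adj (g, k) (h, l) ↔ (h = g ∧ (I N k l ∨ I N l k)) ∨
      (C k l ∧ h = g * x k) ∨ (C l k ∧ h = g * (x l)⁻¹) := by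
  unfold X
  simp only
  constructor
  · rintro (h' | h' | h')
    · exact Or.inl ⟨h'.1.symm, h'.2⟩
    · exact Or.inr (Or.inl h')
    · exact Or.inr (Or.inr ⟨h'.1, by rw [h'.2]; group⟩)
  · rintro (h' | h' | h')
    · exact Or.inl ⟨h'.1.symm, h'.2⟩
    · exact Or.inr (Or.inl h')
    · exact Or.inr (Or.inr ⟨h'.1, by rw [h'.2]; group⟩)

theorem I_lt (N k l : ℕ) (h : I N k l) : k < l := by
  rcases h with h | h | h | h | h | h | h | h | h | h | h | h | h | h | h <;> omega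

theorem I_core (N k l : ℕ) (h : I N k l) (hk : k < 8) (hN : 10 ≤ N) :
    (k = 0 ∧ l = 2) ∨ (k = 0 ∧ l = 3) ∨ (k = 1 ∧ l = 2) ∨ (k = 1 ∧ l = 4) ∨ (k = 2 ∧ l = 5) ∨
    (k = 3 ∧ l = 5) ∨ (k = 3 ∧ l = 6) ∨ (k = 4 ∧ l = 6) ∨ (k = 4 ∧ l = 7) ∨ (k = 5 ∧ l = 7) ∨
    (k = 6 ∧ l = 7) ∨ (k = 0 ∧ l = 8) ∨ (k = 1 ∧ l = 9) := by
  rcases h with h | h | h | h | h | h | h | h | h | h | h | h | h | h | h
  all_goals first | (exfalso; omega) | (simp [h])

theorem core_nbrs (N k : ℕ) (hN : 10 ≤ N) (hk : k < 8) :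
    ∃ a b c, a ≠ b ∧ a ≠ c ∧ b ≠ c ∧ a < N ∧ b < N ∧ c < N ∧
      ∀ l, l < N → ((I N k l ∨ I N l k) ↔ (l = a ∨ l = b ∨ l = c)) := by
  have key : ∀ a b c : ℕ, (∀ l, l < N → (I N k l → l = a ∨ l = b ∨ l = c)) →
      (∀ l, l < N → (I N l k → l = a ∨ l = b ∨ l = c)) →
      (I N k a ∨ I N a k) → (I N k b ∨ I N b k) → (I N k c ∨ I N c k) →
      ∀ l, l < N → ((I N k l ∨ I N l k) ↔ (l = a ∨ l = b ∨ l = c)) := by
    intro a b c h1 h2 h3 h4 h5 l hl
    constructor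
    · rintro (h | h)
      · exact h1 l hl h
      · exact h2 l hl h
    · rintro (h | h | h) <;> subst h <;> assumption
  have fw : ∀ l, l < N → I N k l → (k = 0 ∧ l = 2) ∨ (k = 0 ∧ l = 3) ∨ (k = 1 ∧ l = 2) ∨
      (k = 1 ∧ l = 4) ∨ (k = 2 ∧ l = 5) ∨
      (k = 3 ∧ l = 5) ∨ (k = 3 ∧ l = 6) ∨ (k = 4 ∧ l = 6) ∨ (k = 4 ∧ l = 7) ∨ (k = 5 ∧ l = 7) ∨
      (k = 6 ∧ l = 7) ∨ (k = 0 ∧ l = 8) ∨ (k = 1 ∧ l = 9) := fun l _ h => I_core N k l h hk hN
  have bw : ∀ l, l < N → I N l k → (l = 0 ∧ k = 2) ∨ (l = 0 ∧ k = 3) ∨ (l = 1 ∧ k = 2) ∨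
      (l = 1 ∧ k = 4) ∨ (l = 2 ∧ k = 5) ∨
      (l = 3 ∧ k = 5) ∨ (l = 3 ∧ k = 6) ∨ (l = 4 ∧ k = 6) ∨ (l = 4 ∧ k = 7) ∨ (l = 5 ∧ k = 7) ∨
      (l = 6 ∧ k = 7) ∨ (l = 0 ∧ k = 8) ∨ (l = 1 ∧ k = 9) := fun l _ h =>
    I_core N l k h (by have := I_lt N l k h; omega) hN
  interval_cases k
  · refine ⟨2, 3, 8, by omega, by omega, by omega, by omega, by omega, by omega,
      key 2 3 8 (fun l hl h => ?_) (fun l hl h => ?_) ?_ ?_ ?_⟩
    · have := fw l hl h; omega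
    · have := bw l hl h; omega
    all_goals simp [I]
  · refine ⟨2, 4, 9, by omega, by omega, by omega, by omega, by omega, by omega,
      key 2 4 9 (fun l hl h => ?_) (fun l hl h => ?_) ?_ ?_ ?_⟩
    · have := fw l hl h; omega
    · have := bw l hl h; omega
    all_goals simp [I]
  · refine ⟨0, 1, 5, by omega, by omega, by omega, by omega, by omega, by omega,
      key 0 1 5 (fun l hl h => ?_) (fun l hl h => ?_) ?_ ?_ ?_⟩
    · have := fw l hl h; omega
    · have := bw l hl h; omega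
    all_goals simp [I]
  · refine ⟨0, 5, 6, by omega, by omega, by omega, by omega, by omega, by omega,
      key 0 5 6 (fun l hl h => ?_) (fun l hl h => ?_) ?_ ?_ ?_⟩
    · have := fw l hl h; omega
    · have := bw l hl h; omega
    all_goals simp [I]
  · refine ⟨1, 6, 7, by omega, by omega, by omega, by omega, by omega, by omega,
      key 1 6 7 (fun l hl h => ?_) (fun l hl h => ?_) ?_ ?_ ?_⟩
    · have := fw l hl h; omega
    · have := bw l hl h; omega
    all_goals simp [I]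
  · refine ⟨2, 3, 7, by omega, by omega, by omega, by omega, by omega, by omega,
      key 2 3 7 (fun l hl h => ?_) (fun l hl h => ?_) ?_ ?_ ?_⟩
    · have := fw l hl h; omega
    · have := bw l hl h; omega
    all_goals simp [I]
  · refine ⟨3, 4, 7, by omega, by omega, by omega, by omega, by omega, by omega,
      key 3 4 7 (fun l hl h => ?_) (fun l hl h => ?_) ?_ ?_ ?_⟩
    · have := fw l hl h; omega
    · have := bw l hl h; omega
    all_goals simp [I]
  · refine ⟨4, 5, 6, by omega, by omega, by omega, by omega, by omega, by omega,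
      key 4 5 6 (fun l hl h => ?_) (fun l hl h => ?_) ?_ ?_ ?_⟩
    · have := fw l hl h; omega
    · have := bw l hl h; omega
    all_goals simp [I]

theorem I_path (N k l : ℕ) (hk : 8 ≤ k) :
    I N k l ↔ (l = k + 2 ∨ (k + 2 = N ∧ l + 1 = N)) := by
  constructor
  · intro h
    rcases h with h | h | h | h | h | h | h | h | h | h | h | h | h | h | h <;> omega
  · rintro (h | h)
    · simp [I, h, hk]
    · simp [I, h]

theorem I_path' (N k l : ℕ) (hk : 8 ≤ k) :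
    I N l k ↔ ((k < 10 ∧ l + 8 = k) ∨ (10 ≤ k ∧ l + 2 = k) ∨ (l + 2 = N ∧ k + 1 = N)) := by
  constructor
  · intro h
    rcases h with h | h | h | h | h | h | h | h | h | h | h | h | h | h | h <;> omega
  · rintro (h | h | h)
    · have : (k = 8 ∧ l = 0) ∨ (k = 9 ∧ l = 1) := by omega
      rcases this with h' | h' <;> simp [I, h']
    · have : k = l + 2 := by omega
      have h8 : 8 ≤ l := by omega
      simp [I, this, h8]
    · simp [I, h]

theorem path_nbrs (N k : ℕ) (hN2 : N % 2 = 0) (hk : 8 ≤ k) (hkN : k < N) :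
    ∃ a b c, a ≠ b ∧ a ≠ c ∧ (b = c → k + 2 = N ∨ k + 1 = N) ∧ a < N ∧ b < N ∧ c < N ∧
      (k % 2 = 0 → c = k + 1) ∧ (k % 2 = 1 → c + 1 = k) ∧
      ∀ l, l < N → ((I N k l ∨ I N l k) ↔ (l = a ∨ l = b)) := by
  refine ⟨if k < 10 then k - 8 else k - 2, if k + 2 < N then k + 2 else
    (if k % 2 = 0 then k + 1 else k - 1), if k % 2 = 0 then k + 1 else k - 1, ?_, ?_, ?_, ?_, ?_,
    ?_, ?_, ?_, ?_⟩
  all_goals first
    | (intro l hl; rw [I_path N k l hk, I_path' N k l hk]; split_ifs <;> omega)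
    | (split_ifs <;> omega)

theorem degree (N : ℕ) (x : ℕ → G) (hN : 10 ≤ N) (hN2 : N % 2 = 0) (hx : x (N - 2) ≠ 1)
    (v : G × Fin N) : ((X N x).neighborSet v).ncard = 3 := by
  obtain ⟨g, k, hk⟩ := v
  rw [Set.ncard_eq_three]
  by_cases hk8 : k < 8
  · obtain ⟨a, b, c, hab, hac, hbc, ha, hb, hc, hl⟩ := core_nbrs N k hN hk8
    refine ⟨(g, ⟨a, ha⟩), (g, ⟨b, hb⟩), (g, ⟨c, hc⟩), ?_, ?_, ?_, ?_⟩
    · simpa using hab
    · simpa using hac
    · simpa using hbc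
    · ext ⟨h, l, hlN⟩
      rw [SimpleGraph.mem_neighborSet, adj_iff]
      simp only [Set.mem_insert_iff, Set.mem_singleton_iff, Prod.mk.injEq, Fin.mk.injEq]
      rw [hl l hlN]
      unfold C
      constructor
      · rintro (h' | h' | h')
        · obtain ⟨h1, h2⟩ := h'
          rcases h2 with h2 | h2 | h2
          · exact Or.inl ⟨h1, h2⟩
          · exact Or.inr (Or.inl ⟨h1, h2⟩)
          · exact Or.inr (Or.inr ⟨h1, h2⟩)
        · omega
        · omega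
      · rintro (⟨h1, h2⟩ | ⟨h1, h2⟩ | ⟨h1, h2⟩)
        · exact Or.inl ⟨h1, Or.inl h2⟩
        · exact Or.inl ⟨h1, Or.inr (Or.inl h2)⟩
        · exact Or.inl ⟨h1, Or.inr (Or.inr h2)⟩
  · obtain ⟨a, b, c, hab, hac, hbc, ha, hb, hc, hce, hco, hl⟩ :=
      path_nbrs N k hN2 (by omega) hk
    obtain ⟨u, hu1, hu⟩ : ∃ u : G, (b = c → u ≠ 1) ∧ ∀ (h : G) (l : ℕ), l < N →
        (((C k l ∧ h = g * x k) ∨ (C l k ∧ h = g * (x l)⁻¹)) ↔ (h = g * u ∧ l = c)) := by
      by_cases hk2 : k % 2 = 0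
      · have hc' := hce hk2
        refine ⟨x k, ?_, ?_⟩
        · intro h
          have : k = N - 2 := by have := hbc h; omega
          rw [this]; exact hx
        · intro h l hlN
          unfold C
          constructor
          · rintro (h' | h')
            · exact ⟨h'.2, by omega⟩
            · omega
          · rintro ⟨h1, h2⟩
            exact Or.inl ⟨by omega, h1⟩
      · have hc' := hco (by omega)
        refine ⟨(x c)⁻¹, ?_, ?_⟩
        · intro h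
          have : c = N - 2 := by have := hbc h; omega
          rw [this]; simpa using hx
        · intro h l hlN
          unfold C
          constructor
          · rintro (h' | h')
            · omega
            · have : l = c := by omega
              subst this
              exact ⟨h'.2, rfl⟩
          · rintro ⟨h1, h2⟩
            subst h2
            exact Or.inr ⟨by omega, h1⟩
    refine ⟨(g, ⟨a, ha⟩), (g, ⟨b, hb⟩), (g * u, ⟨c, hc⟩), ?_, ?_, ?_, ?_⟩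
    · simpa using hab
    · intro h
      simp only [Prod.mk.injEq, Fin.mk.injEq] at h
      exact hac h.2
    · intro h
      simp only [Prod.mk.injEq, Fin.mk.injEq] at h
      exact hu1 h.2 (by simpa using h.1.symm)
    · ext ⟨h, l, hlN⟩
      rw [SimpleGraph.mem_neighborSet, adj_iff]
      simp only [Set.mem_insert_iff, Set.mem_singleton_iff, Prod.mk.injEq, Fin.mk.injEq]
      rw [hl l hlN, hu h l hlN]
      constructor
      · rintro (⟨h1, h2 | h2⟩ | h')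
        · exact Or.inl ⟨h1, h2⟩
        · exact Or.inr (Or.inl ⟨h1, h2⟩)
        · exact Or.inr (Or.inr h')
      · rintro (⟨h1, h2⟩ | ⟨h1, h2⟩ | h')
        · exact Or.inl ⟨h1, Or.inl h2⟩
        · exact Or.inl ⟨h1, Or.inr h2⟩
        · exact Or.inr h'

/-! ### Label sets preserved by an automorphism -/

theorem adj_B (N : ℕ) (x : ℕ → G) (v w : G × Fin N) (h : (X N x).Adj v w) : B N v.2 w.2 := by
  obtain ⟨g, k⟩ := v
  obtain ⟨h', l⟩ := w
  rw [adj_iff] at h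
  refine ⟨l.2, ?_⟩
  simp only
  tauto

theorem B_adj (N : ℕ) (x : ℕ → G) (v : G × Fin N) (l : ℕ) (h : B N v.2 l) :
    ∃ w : G × Fin N, (X N x).Adj v w ∧ (w.2 : ℕ) = l := by
  obtain ⟨g, k⟩ := v
  obtain ⟨hl, h⟩ := h
  rcases h with h | h | h | h
  · exact ⟨(g, ⟨l, hl⟩), (adj_iff _ _ _ _ _ _).2 (Or.inl ⟨rfl, Or.inl h⟩), rfl⟩
  · exact ⟨(g, ⟨l, hl⟩), (adj_iff _ _ _ _ _ _).2 (Or.inl ⟨rfl, Or.inr h⟩), rfl⟩
  · exact ⟨(g * x k, ⟨l, hl⟩), (adj_iff _ _ _ _ _ _).2 (Or.inr (Or.inl ⟨h, rfl⟩)), rfl⟩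
  · exact ⟨(g * (x l)⁻¹, ⟨l, hl⟩), (adj_iff _ _ _ _ _ _).2 (Or.inr (Or.inr ⟨h, rfl⟩)), rfl⟩

/-- the set `S` of labels is preserved -/
def Pres {N : ℕ} {x : ℕ → G} (φ : X N x ≃g X N x) (S : ℕ → Prop) : Prop :=
  ∀ v : G × Fin N, S v.2 ↔ S (φ v).2

/-- the labels with a neighbour in `S` -/
def Nb (N : ℕ) (S : ℕ → Prop) (k : ℕ) : Prop := ∃ l, B N k l ∧ S l

theorem pres_nb {N : ℕ} {x : ℕ → G} (φ : X N x ≃g X N x) (S : ℕ → Prop) (h : Pres φ S) :
    Pres φ (Nb N S) := by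
  intro v
  constructor
  · rintro ⟨l, hl, hS⟩
    obtain ⟨w, hw, hwl⟩ := B_adj N x v l hl
    refine ⟨(φ w).2, adj_B N x _ _ (φ.map_adj_iff.2 hw), ?_⟩
    rw [← h w, hwl]
    exact hS
  · rintro ⟨l, hl, hS⟩
    obtain ⟨w, hw, hwl⟩ := B_adj N x (φ v) l hl
    have hw' : (X N x).Adj v (φ.symm w) := by
      have := φ.symm.map_adj_iff.2 hw
      simpa using this
    refine ⟨(φ.symm w).2, adj_B N x _ _ hw', ?_⟩
    rw [h (φ.symm w)]
    have e : φ (φ.symm w) = w := by simp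
    rw [e, hwl]
    exact hS

theorem pres_congr {N : ℕ} {x : ℕ → G} (φ : X N x ≃g X N x) {S T : ℕ → Prop} (h : Pres φ S)
    (e : ∀ k, k < N → (S k ↔ T k)) : Pres φ T := by
  intro v
  rw [← e _ v.2.2, ← e _ (φ v).2.2]
  exact h v

theorem pres_diff {N : ℕ} {x : ℕ → G} (φ : X N x ≃g X N x) {S T : ℕ → Prop} (h : Pres φ S)
    (h' : Pres φ T) : Pres φ (fun k => S k ∧ ¬ T k) := by
  intro v
  simp only
  rw [h v, h' v]

theorem pres_inter {N : ℕ} {x : ℕ → G} (φ : X N x ≃g X N x) {S T : ℕ → Prop} (h : Pres φ S)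
    (h' : Pres φ T) : Pres φ (fun k => S k ∧ T k) := by
  intro v
  simp only
  rw [h v, h' v]

/-- the labels of the vertices on triangles -/
def Tr (k : ℕ) : Prop := k = 4 ∨ k = 6 ∨ k = 7

theorem tri_core (a b c : ℕ)
    (e1 : (a = 0 ∧ b = 2) ∨ (a = 0 ∧ b = 3) ∨ (a = 1 ∧ b = 2) ∨ (a = 1 ∧ b = 4) ∨
      (a = 2 ∧ b = 5) ∨ (a = 3 ∧ b = 5) ∨ (a = 3 ∧ b = 6) ∨ (a = 4 ∧ b = 6) ∨ (a = 4 ∧ b = 7) ∨
      (a = 5 ∧ b = 7) ∨ (a = 6 ∧ b = 7) ∨ (a = 0 ∧ b = 8) ∨ (a = 1 ∧ b = 9))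
    (e2 : (a = 0 ∧ c = 2) ∨ (a = 0 ∧ c = 3) ∨ (a = 1 ∧ c = 2) ∨ (a = 1 ∧ c = 4) ∨
      (a = 2 ∧ c = 5) ∨ (a = 3 ∧ c = 5) ∨ (a = 3 ∧ c = 6) ∨ (a = 4 ∧ c = 6) ∨ (a = 4 ∧ c = 7) ∨
      (a = 5 ∧ c = 7) ∨ (a = 6 ∧ c = 7) ∨ (a = 0 ∧ c = 8) ∨ (a = 1 ∧ c = 9)) (hbc : b < c) :
    (a = 0 ∧ b = 2 ∧ c = 3) ∨ (a = 0 ∧ b = 2 ∧ c = 8) ∨ (a = 0 ∧ b = 3 ∧ c = 8) ∨
        (a = 1 ∧ b = 2 ∧ c = 4) ∨ (a = 1 ∧ b = 2 ∧ c = 9) ∨ (a = 1 ∧ b = 4 ∧ c = 9) ∨
        (a = 3 ∧ b = 5 ∧ c = 6) ∨ (a = 4 ∧ b = 6 ∧ c = 7) := by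
  have ha : a < 7 := by
    rcases e1 with h | h | h | h | h | h | h | h | h | h | h | h | h <;> omega
  interval_cases a <;> simp at e1 e2 ⊢ <;> omega

theorem tri_sorted {N : ℕ} (hN : 10 ≤ N) (hN2 : N % 2 = 0) (a b c : ℕ) (h1 : I N a b ∨ C a b)
    (h2 : I N a c ∨ C a c) (h3 : I N b c ∨ C b c) (hbc : b < c) : a = 4 ∧ b = 6 ∧ c = 7 := by
  by_cases ha : a < 8
  · have h1' : I N a b := by
      rcases h1 with h | h
      · exact h
      · unfold C at h; omega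
    have h2' : I N a c := by
      rcases h2 with h | h
      · exact h
      · unfold C at h; omega
    have e := tri_core a b c (I_core N a b h1' ha hN) (I_core N a c h2' ha hN) hbc
    have hb : b < 8 := by
      rcases e with h | h | h | h | h | h | h | h <;> omega
    have h3' : I N b c := by
      rcases h3 with h | h
      · exact h
      · unfold C at h; omega
    have e3 := I_core N b c h3' hb hN
    clear h1 h2 h3 h1' h2' h3' hN hN2 ha hb
    rcases e with h | h | h | h | h | h | h | h <;> obtain ⟨rfl, rfl, rfl⟩ := h <;>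
      simp at e3 ⊢
  · have ha : 8 ≤ a := by omega
    rw [I_path N a b ha] at h1
    rw [I_path N a c ha] at h2
    unfold C at h1 h2
    have hb : 8 ≤ b := by
      rcases h1 with (h1 | h1) | h1 <;> omega
    rw [I_path N b c hb] at h3
    unfold C at h3
    exfalso
    rcases h1 with (h1 | h1) | h1 <;> rcases h2 with (h2 | h2) | h2 <;>
      rcases h3 with (h3 | h3) | h3 <;> omega

theorem B_lt {N : ℕ} (a b : ℕ) (h : B N a b) (hab : a < b) : I N a b ∨ C a b := by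
  rcases h.2 with h | h | h | h
  · exact Or.inl h
  · have := I_lt N b a h; omega
  · exact Or.inr h
  · unfold C at h; omega

theorem B_ne {N : ℕ} (a b : ℕ) (h : B N a b) : a ≠ b := by
  rcases h.2 with h | h | h | h
  · have := I_lt N a b h; omega
  · have := I_lt N b a h; omega
  · unfold C at h; omega
  · unfold C at h; omega

theorem B_symm {N : ℕ} (a b : ℕ) (ha : a < N) (h : B N a b) : B N b a := by
  refine ⟨ha, ?_⟩
  rcases h.2 with h | h | h | h
  · exact Or.inr (Or.inl h)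
  · exact Or.inl h
  · exact Or.inr (Or.inr (Or.inr h))
  · exact Or.inr (Or.inr (Or.inl h))

theorem tri_lab {N : ℕ} (hN : 10 ≤ N) (hN2 : N % 2 = 0) (a b c : ℕ) (ha : a < N) (hb : b < N) (h1 : B N a b)
    (h2 : B N a c) (h3 : B N b c) : Tr a := by
  have hc := h2.1
  have h1' := B_symm a b ha h1
  have h2' := B_symm a c ha h2
  have h3' := B_symm b c hb h3
  have n1 := B_ne a b h1
  have n2 := B_ne a c h2
  have n3 := B_ne b c h3
  unfold Tr
  rcases lt_or_gt_of_ne n1 with l1 | l1 <;> rcases lt_or_gt_of_ne n2 with l2 | l2 <;>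
    rcases lt_or_gt_of_ne n3 with l3 | l3
  · have := tri_sorted hN hN2 a b c (B_lt _ _ h1 l1) (B_lt _ _ h2 l2) (B_lt _ _ h3 l3) l3; omega
  · have := tri_sorted hN hN2 a c b (B_lt _ _ h2 l2) (B_lt _ _ h1 l1) (B_lt _ _ h3' l3) l3; omega
  · omega
  · have := tri_sorted hN hN2 c a b (B_lt _ _ h2' l2) (B_lt _ _ h3' l3) (B_lt _ _ h1 l1) l1; omega
  · have := tri_sorted hN hN2 b a c (B_lt _ _ h1' l1) (B_lt _ _ h3 l3) (B_lt _ _ h2 l2) l2; omega
  · omega
  · have := tri_sorted hN hN2 b c a (B_lt _ _ h3 l3) (B_lt _ _ h1' l1) (B_lt _ _ h2' l2) l2; omega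
  · have := tri_sorted hN hN2 c b a (B_lt _ _ h3' l3) (B_lt _ _ h2' l2) (B_lt _ _ h1' l1) l1; omega

theorem tri_iff {N : ℕ} (hN : 10 ≤ N) (hN2 : N % 2 = 0) (x : ℕ → G) (v : G × Fin N) :
    Tr v.2 ↔ ∃ u w, (X N x).Adj v u ∧ (X N x).Adj v w ∧ (X N x).Adj u w := by
  constructor
  · obtain ⟨g, k, hk⟩ := v
    rintro (h | h | h)
    · simp only at h
      subst h
      refine ⟨(g, ⟨6, by omega⟩), (g, ⟨7, by omega⟩), ?_, ?_, ?_⟩ <;> rw [adj_iff] <;>
        refine Or.inl ⟨rfl, ?_⟩ <;> unfold I <;> simp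
    · simp only at h
      subst h
      refine ⟨(g, ⟨4, by omega⟩), (g, ⟨7, by omega⟩), ?_, ?_, ?_⟩ <;> rw [adj_iff] <;>
        refine Or.inl ⟨rfl, ?_⟩ <;> unfold I <;> simp
    · simp only at h
      subst h
      refine ⟨(g, ⟨4, by omega⟩), (g, ⟨6, by omega⟩), ?_, ?_, ?_⟩ <;> rw [adj_iff] <;>
        refine Or.inl ⟨rfl, ?_⟩ <;> unfold I <;> simp
  · rintro ⟨u, w, h1, h2, h3⟩
    exact tri_lab hN hN2 _ _ _ v.2.2 u.2.2 (adj_B N x _ _ h1) (adj_B N x _ _ h2) (adj_B N x _ _ h3)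

theorem pres_tr {N : ℕ} (hN : 10 ≤ N) (hN2 : N % 2 = 0) {x : ℕ → G} (φ : X N x ≃g X N x) : Pres φ Tr := by
  intro v
  rw [tri_iff hN hN2 x v, tri_iff hN hN2 x (φ v)]
  constructor
  · rintro ⟨u, w, h1, h2, h3⟩
    exact ⟨φ u, φ w, φ.map_adj_iff.2 h1, φ.map_adj_iff.2 h2, φ.map_adj_iff.2 h3⟩
  · rintro ⟨u, w, h1, h2, h3⟩
    refine ⟨φ.symm u, φ.symm w, ?_, ?_, ?_⟩
    · simpa using φ.symm.map_adj_iff.2 h1
    · simpa using φ.symm.map_adj_iff.2 h2
    · exact φ.symm.map_adj_iff.2 h3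

theorem B_core (N k l : ℕ) (hN : 10 ≤ N) (hl : l < 8) (h : B N k l) :
    ((k = 0 ∧ l = 2) ∨ (k = 0 ∧ l = 3) ∨ (k = 1 ∧ l = 2) ∨ (k = 1 ∧ l = 4) ∨ (k = 2 ∧ l = 5) ∨
    (k = 3 ∧ l = 5) ∨ (k = 3 ∧ l = 6) ∨ (k = 4 ∧ l = 6) ∨ (k = 4 ∧ l = 7) ∨ (k = 5 ∧ l = 7) ∨
    (k = 6 ∧ l = 7) ∨ (k = 0 ∧ l = 8) ∨ (k = 1 ∧ l = 9)) ∨
    ((l = 0 ∧ k = 2) ∨ (l = 0 ∧ k = 3) ∨ (l = 1 ∧ k = 2) ∨ (l = 1 ∧ k = 4) ∨ (l = 2 ∧ k = 5) ∨
    (l = 3 ∧ k = 5) ∨ (l = 3 ∧ k = 6) ∨ (l = 4 ∧ k = 6) ∨ (l = 4 ∧ k = 7) ∨ (l = 5 ∧ k = 7) ∨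
    (l = 6 ∧ k = 7) ∨ (l = 0 ∧ k = 8) ∨ (l = 1 ∧ k = 9)) := by
  rcases h.2 with h | h | h | h
  · exact Or.inl (I_core N k l h (by have := I_lt N k l h; omega) hN)
  · exact Or.inr (I_core N l k h hl hN)
  · unfold C at h; omega
  · unfold C at h; omega

theorem nb0 {N : ℕ} (hN : 10 ≤ N) (k : ℕ) : B N k 0 ↔ k = 2 ∨ k = 3 ∨ k = 8 := by
  constructor
  · intro h
    have := B_core N k 0 hN (by norm_num) h
    simp at this
    omega
  · rintro (h | h | h) <;> subst h <;> refine ⟨by omega, Or.inr (Or.inl ?_)⟩ <;> simp [I]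

theorem nb1 {N : ℕ} (hN : 10 ≤ N) (k : ℕ) : B N k 1 ↔ k = 2 ∨ k = 4 ∨ k = 9 := by
  constructor
  · intro h
    have := B_core N k 1 hN (by norm_num) h
    simp at this
    omega
  · rintro (h | h | h) <;> subst h <;> refine ⟨by omega, Or.inr (Or.inl ?_)⟩ <;> simp [I]

theorem nb2 {N : ℕ} (hN : 10 ≤ N) (k : ℕ) : B N k 2 ↔ k = 0 ∨ k = 1 ∨ k = 5 := by
  constructor
  · intro h
    have := B_core N k 2 hN (by norm_num) h
    simp at this
    omega
  · rintro (h | h | h) <;> subst h <;> refine ⟨by omega, ?_⟩ <;> simp [I]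

theorem nb3 {N : ℕ} (hN : 10 ≤ N) (k : ℕ) : B N k 3 ↔ k = 0 ∨ k = 5 ∨ k = 6 := by
  constructor
  · intro h
    have := B_core N k 3 hN (by norm_num) h
    simp at this
    omega
  · rintro (h | h | h) <;> subst h <;> refine ⟨by omega, ?_⟩ <;> simp [I]

theorem nb4 {N : ℕ} (hN : 10 ≤ N) (k : ℕ) : B N k 4 ↔ k = 1 ∨ k = 6 ∨ k = 7 := by
  constructor
  · intro h
    have := B_core N k 4 hN (by norm_num) h
    simp at this
    omega
  · rintro (h | h | h) <;> subst h <;> refine ⟨by omega, ?_⟩ <;> simp [I]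

theorem nb5 {N : ℕ} (hN : 10 ≤ N) (k : ℕ) : B N k 5 ↔ k = 2 ∨ k = 3 ∨ k = 7 := by
  constructor
  · intro h
    have := B_core N k 5 hN (by norm_num) h
    simp at this
    omega
  · rintro (h | h | h) <;> subst h <;> refine ⟨by omega, ?_⟩ <;> simp [I]

theorem nb6 {N : ℕ} (hN : 10 ≤ N) (k : ℕ) : B N k 6 ↔ k = 3 ∨ k = 4 ∨ k = 7 := by
  constructor
  · intro h
    have := B_core N k 6 hN (by norm_num) h
    simp at this
    omega
  · rintro (h | h | h) <;> subst h <;> refine ⟨by omega, ?_⟩ <;> simp [I]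

theorem nb7 {N : ℕ} (hN : 10 ≤ N) (k : ℕ) : B N k 7 ↔ k = 4 ∨ k = 5 ∨ k = 6 := by
  constructor
  · intro h
    have := B_core N k 7 hN (by norm_num) h
    simp at this
    omega
  · rintro (h | h | h) <;> subst h <;> refine ⟨by omega, ?_⟩ <;> simp [I]

theorem nbp {N : ℕ} (hN2 : N % 2 = 0) (k l : ℕ) (hl : 8 ≤ l) (hlN : l < N) (hk : k < N) :
    B N k l ↔ (l < 10 ∧ k + 8 = l) ∨ (10 ≤ l ∧ k + 2 = l) ∨ k = l + 2 ∨
      (l % 2 = 0 ∧ k = l + 1) ∨ (l % 2 = 1 ∧ k + 1 = l) := by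
  unfold B
  rw [I_path N l k hl, I_path' N l k hl]
  unfold C
  constructor
  · rintro ⟨-, h⟩
    rcases h with (h | h | h) | (h | h) | h | h <;> omega
  · intro h
    refine ⟨hlN, ?_⟩
    rcases h with h | h | h | h | h <;> omega

theorem nb_single (N : ℕ) (a k : ℕ) : Nb N (fun j => j = a) k ↔ B N k a := by
  unfold Nb
  simp

theorem pres_single {N : ℕ} (hN : 10 ≤ N) (hN2 : N % 2 = 0) {x : ℕ → G} (φ : X N x ≃g X N x) :
    ∀ k, k < N → Pres φ (fun j => j = k) := by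
  have hT : Pres φ (fun j => j = 4 ∨ j = 6 ∨ j = 7) := pres_tr hN hN2 φ
  have nT : ∀ k, Nb N (fun j => j = 4 ∨ j = 6 ∨ j = 7) k ↔ (B N k 4 ∨ B N k 6 ∨ B N k 7) := by
    intro k
    unfold Nb
    constructor
    · rintro ⟨l, h, rfl | rfl | rfl⟩ <;> simp [h]
    · rintro (h | h | h) <;> exact ⟨_, h, by simp⟩
  have hL : Pres φ (fun j => j = 1 ∨ j = 3 ∨ j = 5) := by
    refine pres_congr φ (pres_diff φ (pres_nb φ _ hT) hT) fun k _ => ?_
    rw [nT k, nb4 hN, nb6 hN, nb7 hN]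
    omega
  have nL : ∀ k, Nb N (fun j => j = 1 ∨ j = 3 ∨ j = 5) k ↔ (B N k 1 ∨ B N k 3 ∨ B N k 5) := by
    intro k
    unfold Nb
    constructor
    · rintro ⟨l, h, rfl | rfl | rfl⟩ <;> simp [h]
    · rintro (h | h | h) <;> exact ⟨_, h, by simp⟩
  have h1 : Pres φ (fun j => j = 1) := by
    refine pres_congr φ (pres_diff φ hL (pres_nb φ _ hL)) fun k _ => ?_
    rw [nL k, nb1 hN, nb3 hN, nb5 hN]
    omega
  have h35 : Pres φ (fun j => j = 3 ∨ j = 5) := by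
    refine pres_congr φ (pres_diff φ hL h1) fun k _ => ?_
    omega
  have n35 : ∀ k, Nb N (fun j => j = 3 ∨ j = 5) k ↔ (B N k 3 ∨ B N k 5) := by
    intro k
    unfold Nb
    constructor
    · rintro ⟨l, h, rfl | rfl⟩ <;> simp [h]
    · rintro (h | h) <;> exact ⟨_, h, by simp⟩
  have h2 : Pres φ (fun j => j = 2) := by
    refine pres_congr φ (pres_inter φ (pres_nb φ _ h1) (pres_nb φ _ h35)) fun k _ => ?_
    rw [nb_single, n35 k, nb1 hN, nb3 hN, nb5 hN]
    omega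
  have h5 : Pres φ (fun j => j = 5) := by
    refine pres_congr φ (pres_inter φ h35 (pres_nb φ _ h2)) fun k _ => ?_
    rw [nb_single, nb2 hN]
    omega
  have h3 : Pres φ (fun j => j = 3) := by
    refine pres_congr φ (pres_diff φ h35 h5) fun k _ => ?_
    omega
  have h4 : Pres φ (fun j => j = 4) := by
    refine pres_congr φ (pres_inter φ hT (pres_nb φ _ h1)) fun k _ => ?_
    rw [nb_single, nb1 hN]
    omega
  have h6 : Pres φ (fun j => j = 6) := by
    refine pres_congr φ (pres_inter φ hT (pres_nb φ _ h3)) fun k _ => ?_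
    rw [nb_single, nb3 hN]
    omega
  have h7 : Pres φ (fun j => j = 7) := by
    refine pres_congr φ (pres_inter φ hT (pres_nb φ _ h5)) fun k _ => ?_
    rw [nb_single, nb5 hN]
    omega
  have h0 : Pres φ (fun j => j = 0) := by
    refine pres_congr φ (pres_diff φ (pres_inter φ (pres_nb φ _ h2) (pres_nb φ _ h3)) h5)
      fun k _ => ?_
    rw [nb_single, nb_single, nb2 hN, nb3 hN]
    omega
  have h8 : Pres φ (fun j => j = 8) := by
    refine pres_congr φ (pres_diff φ (pres_diff φ (pres_nb φ _ h0) h2) h3) fun k _ => ?_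
    rw [nb_single, nb0 hN]
    omega
  have h9 : Pres φ (fun j => j = 9) := by
    refine pres_congr φ (pres_diff φ (pres_diff φ (pres_nb φ _ h1) h2) h4) fun k _ => ?_
    rw [nb_single, nb1 hN]
    omega
  intro k
  induction k using Nat.strong_induction_on with
  | _ k ih =>
    intro hk
    by_cases hk10 : k < 10
    · interval_cases k <;> assumption
    · obtain ⟨l, rfl⟩ : ∃ l, k = l + 2 := ⟨k - 2, by omega⟩
      have hl8 : 8 ≤ l := by omega
      have hl := ih l (by omega) (by omega)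
      obtain ⟨p, hp, hp'⟩ : ∃ p, p < l ∧ ((l < 10 ∧ p + 8 = l) ∨ (10 ≤ l ∧ p + 2 = l)) := by
        by_cases h : l < 10
        · exact ⟨l - 8, by omega, by omega⟩
        · exact ⟨l - 2, by omega, by omega⟩
      obtain ⟨q, hq, hq'⟩ : ∃ q, q < l + 2 ∧ ((l % 2 = 0 ∧ q = l + 1) ∨ (l % 2 = 1 ∧ q + 1 = l)) := by
        by_cases h : l % 2 = 0
        · exact ⟨l + 1, by omega, by omega⟩
        · exact ⟨l - 1, by omega, by omega⟩
      have hp1 := ih p (by omega) (by omega)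
      have hq1 := ih q hq (by omega)
      refine pres_congr φ (pres_diff φ (pres_diff φ (pres_nb φ _ hl) hp1) hq1) fun k hk => ?_
      rw [nb_single, nbp hN2 k l hl8 (by omega) hk]
      omega

theorem label {N : ℕ} (hN : 10 ≤ N) (hN2 : N % 2 = 0) {x : ℕ → G} (φ : X N x ≃g X N x)
    (v : G × Fin N) : (φ v).2 = v.2 := by
  have h := (pres_single hN hN2 φ v.2 v.2.2 v).1 rfl
  exact Fin.ext h

/-! ### Rigidity -/

theorem inner {N : ℕ} (hN : 10 ≤ N) (hN2 : N % 2 = 0) {x : ℕ → G} (φ : X N x ≃g X N x) (g : G)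
    (k l : ℕ) (hk : k < N) (hl : l < N) (h : I N k l) (hC : ¬ C k l) :
    (φ (g, ⟨k, hk⟩)).1 = (φ (g, ⟨l, hl⟩)).1 := by
  have h1 : (X N x).Adj (g, ⟨k, hk⟩) (g, ⟨l, hl⟩) :=
    (adj_iff _ _ _ _ _ _).2 (Or.inl ⟨rfl, Or.inl h⟩)
  have h2 := φ.map_adj_iff.2 h1
  have e1 := label hN hN2 φ (g, ⟨k, hk⟩)
  have e2 := label hN hN2 φ (g, ⟨l, hl⟩)
  generalize φ (g, ⟨k, hk⟩) = v at *
  generalize φ (g, ⟨l, hl⟩) = w at *
  obtain ⟨a, k'⟩ := v
  obtain ⟨b, l'⟩ := w
  simp only at e1 e2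
  subst e1
  subst e2
  rw [adj_iff] at h2
  simp only at h2 ⊢
  rcases h2 with h2 | h2 | h2
  · exact h2.1.symm
  · exact absurd h2.1 hC
  · have h3 := h2.1
    have h4 := I_lt N k l h
    unfold C at h3
    omega

theorem fib {N : ℕ} (hN : 10 ≤ N) (hN2 : N % 2 = 0) {x : ℕ → G} (φ : X N x ≃g X N x) (g : G) :
    ∀ (k : ℕ) (hk : k < N), (φ (g, ⟨k, hk⟩)).1 = (φ (g, ⟨0, by omega⟩)).1 := by
  have h2 : (φ (g, ⟨2, by omega⟩)).1 = (φ (g, ⟨0, by omega⟩)).1 :=
    (inner hN hN2 φ g 0 2 _ _ (by simp [I]) (by simp [C])).symm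
  have h3 : (φ (g, ⟨3, by omega⟩)).1 = (φ (g, ⟨0, by omega⟩)).1 :=
    (inner hN hN2 φ g 0 3 _ _ (by simp [I]) (by simp [C])).symm
  have h1 : (φ (g, ⟨1, by omega⟩)).1 = (φ (g, ⟨0, by omega⟩)).1 :=
    (inner hN hN2 φ g 1 2 _ _ (by simp [I]) (by simp [C])).trans h2
  have h4 : (φ (g, ⟨4, by omega⟩)).1 = (φ (g, ⟨0, by omega⟩)).1 :=
    (inner hN hN2 φ g 1 4 _ _ (by simp [I]) (by simp [C])).symm.trans h1
  have h5 : (φ (g, ⟨5, by omega⟩)).1 = (φ (g, ⟨0, by omega⟩)).1 :=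
    (inner hN hN2 φ g 2 5 _ _ (by simp [I]) (by simp [C])).symm.trans h2
  have h6 : (φ (g, ⟨6, by omega⟩)).1 = (φ (g, ⟨0, by omega⟩)).1 :=
    (inner hN hN2 φ g 3 6 _ _ (by simp [I]) (by simp [C])).symm.trans h3
  have h7 : (φ (g, ⟨7, by omega⟩)).1 = (φ (g, ⟨0, by omega⟩)).1 :=
    (inner hN hN2 φ g 4 7 _ _ (by simp [I]) (by simp [C])).symm.trans h4
  have h8 : (φ (g, ⟨8, by omega⟩)).1 = (φ (g, ⟨0, by omega⟩)).1 :=
    (inner hN hN2 φ g 0 8 _ _ (by simp [I]) (by simp [C])).symm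
  have h9 : (φ (g, ⟨9, by omega⟩)).1 = (φ (g, ⟨0, by omega⟩)).1 :=
    (inner hN hN2 φ g 1 9 _ _ (by simp [I]) (by simp [C])).symm.trans h1
  intro k
  induction k using Nat.strong_induction_on with
  | _ k ih =>
    intro hk
    by_cases hk10 : k < 10
    · interval_cases k
      · rfl
      all_goals assumption
    · obtain ⟨l, rfl⟩ : ∃ l, k = l + 2 := ⟨k - 2, by omega⟩
      have hl := ih l (by omega) (by omega)
      exact (inner hN hN2 φ g l (l + 2) _ _ (by simp [I]; omega) (by simp [C])).symm.trans hl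

theorem chord {N : ℕ} (hN : 10 ≤ N) (hN2 : N % 2 = 0) {x : ℕ → G} (hx : x (N - 2) ≠ 1)
    (φ : X N x ≃g X N x) (g : G) (k : ℕ) (hk8 : 8 ≤ k) (hk2 : k % 2 = 0) (hk : k < N) :
    (φ (g * x k, ⟨0, by omega⟩)).1 = (φ (g, ⟨0, by omega⟩)).1 * x k := by
  have hk1 : k + 1 < N := by omega
  have h1 : (X N x).Adj (g, ⟨k, hk⟩) (g * x k, ⟨k + 1, hk1⟩) :=
    (adj_iff _ _ _ _ _ _).2 (Or.inr (Or.inl ⟨⟨hk8, hk2, rfl⟩, rfl⟩))
  have h2 := φ.map_adj_iff.2 h1
  have e1 := label hN hN2 φ (g, ⟨k, hk⟩)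
  have e2 := label hN hN2 φ (g * x k, ⟨k + 1, hk1⟩)
  have f1 := fib hN hN2 φ g k hk
  have f2 := fib hN hN2 φ (g * x k) (k + 1) hk1
  have f3 := fib hN hN2 φ g (k + 1) hk1
  have e3 := label hN hN2 φ (g, ⟨k + 1, hk1⟩)
  have inj : (φ (g, ⟨k + 1, hk1⟩)) = φ (g * x k, ⟨k + 1, hk1⟩) → x k = 1 := by
    intro h
    have := φ.injective h
    simpa using this
  rw [← f1, ← f2]
  rw [← f1] at f3
  generalize φ (g, ⟨k, hk⟩) = v at *
  generalize φ (g * x k, ⟨k + 1, hk1⟩) = w at *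
  generalize φ (g, ⟨k + 1, hk1⟩) = u at *
  obtain ⟨a, k'⟩ := v
  obtain ⟨b, l'⟩ := w
  obtain ⟨c, m'⟩ := u
  simp only at e1 e2 e3 f3
  subst e1
  subst e2
  subst e3
  rw [adj_iff] at h2
  simp only at h2 ⊢
  rcases h2 with h2 | h2 | h2
  · exfalso
    have hN' : k + 2 = N := by
      rcases h2.2 with h3 | h3
      · have := (I_path N k (k + 1) hk8).1 h3
        omega
      · have := I_lt _ _ _ h3
        omega
    have hk' : N - 2 = k := by omega
    rw [hk'] at hx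
    apply hx
    apply inj
    rw [f3, h2.1]
  · exact h2.2
  · have h3 := h2.1
    unfold C at h3
    omega

theorem rigid {N : ℕ} (hN : 10 ≤ N) (hN2 : N % 2 = 0) {x : ℕ → G} (hx : x (N - 2) ≠ 1)
    (hgen : Subgroup.closure {y | ∃ k, 8 ≤ k ∧ k % 2 = 0 ∧ k < N ∧ y = x k} = ⊤)
    (φ : X N x ≃g X N x) (v : G × Fin N) :
    φ v = ((φ (1, ⟨0, by omega⟩)).1 * v.1, v.2) := by
  have key : ∀ s : G, ∀ g : G, (φ (g * s, ⟨0, by omega⟩)).1 = (φ (g, ⟨0, by omega⟩)).1 * s := by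
    intro s
    have hs : s ∈ Subgroup.closure {y | ∃ k, 8 ≤ k ∧ k % 2 = 0 ∧ k < N ∧ y = x k} := by
      rw [hgen]; trivial
    induction hs using Subgroup.closure_induction with
    | mem y hy =>
      obtain ⟨k, h1, h2, h3, rfl⟩ := hy
      intro g
      exact chord hN hN2 hx φ g k h1 h2 h3
    | one => intro g; simp
    | mul a b _ _ ha hb =>
      intro g
      rw [← mul_assoc, hb, ha, mul_assoc]
    | inv a _ ha =>
      intro g
      have := ha (g * a⁻¹)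
      rw [inv_mul_cancel_right] at this
      rw [this]
      group
  obtain ⟨g, k, hk⟩ := v
  apply Prod.ext
  · rw [fib hN hN2 φ g k hk]
    have := key g 1
    rw [one_mul] at this
    exact this
  · exact label hN hN2 φ _

/-- left multiplication by an element of the group -/
def L (N : ℕ) (x : ℕ → G) (a : G) : X N x ≃g X N x where
  toFun v := (a * v.1, v.2)
  invFun v := (a⁻¹ * v.1, v.2)
  left_inv v := by simp
  right_inv v := by simp
  map_rel_iff' := by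
    rintro ⟨g, k⟩ ⟨h, l⟩
    simp only [Equiv.coe_fn_mk, adj_iff, mul_assoc, mul_right_inj]

theorem rep {N : ℕ} (hN : 10 ≤ N) (hN2 : N % 2 = 0) {x : ℕ → G} (hx : x (N - 2) ≠ 1)
    (hgen : Subgroup.closure {y | ∃ k, 8 ≤ k ∧ k % 2 = 0 ∧ k < N ∧ y = x k} = ⊤) :
    Nonempty ((X N x ≃g X N x) ≃* G) := by
  have hm : ∀ a b : G, L N x (a * b) = L N x a * L N x b := by
    intro a b
    apply RelIso.ext
    intro v
    change (a * b * v.1, v.2) = (a * (b * v.1), v.2)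
    rw [mul_assoc]
  let f : G →* (X N x ≃g X N x) := MonoidHom.mk' (L N x) hm
  have hf : Function.Bijective f := by
    constructor
    · intro a b h
      have h1 : L N x a = L N x b := h
      have h2 : L N x a (1, ⟨0, by omega⟩) = L N x b (1, ⟨0, by omega⟩) := by rw [h1]
      have h3 : (a * 1, (⟨0, by omega⟩ : Fin N)) = (b * 1, ⟨0, by omega⟩) := h2
      simpa using h3
    · intro φ
      refine ⟨(φ (1, ⟨0, by omega⟩)).1, ?_⟩
      apply RelIso.ext
      intro v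
      rw [rigid hN hN2 hx hgen φ v]
      rfl
  exact ⟨(MulEquiv.ofBijective f hf).symm⟩

/-- the voltages: the `i`-th chord joins the labels `8 + 2 i` and `9 + 2 i` -/
theorem exists_voltage [Finite G] (hr : 1 ≤ Group.rank G) :
    ∃ x : ℕ → G, x (8 + 2 * Group.rank G - 2) ≠ 1 ∧
      Subgroup.closure {y | ∃ k, 8 ≤ k ∧ k % 2 = 0 ∧ k < 8 + 2 * Group.rank G ∧ y = x k} = ⊤ := by
  classical
  obtain ⟨S, hS, hgen⟩ := Group.rank_spec (G := G)
  have h1 : (1 : G) ∉ S := by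
    intro h
    have h2 : Subgroup.closure ((S.erase 1 : Finset G) : Set G) = ⊤ := by
      rw [← hgen]
      apply le_antisymm
      · apply Subgroup.closure_mono
        intro s hs
        exact Finset.mem_of_mem_erase hs
      · rw [Subgroup.closure_le]
        intro s hs
        by_cases hs1 : s = 1
        · rw [hs1]; exact Subgroup.one_mem _
        · apply Subgroup.subset_closure
          simp only [Finset.coe_erase, Set.mem_sdiff, Finset.mem_coe, Set.mem_singleton_iff]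
          exact ⟨hs, hs1⟩
    have h3 := Group.rank_le h2
    rw [Finset.card_erase_of_mem h, hS] at h3
    omega
  let e : Fin (Group.rank G) ≃ S := (Finset.equivFinOfCardEq hS).symm
  refine ⟨fun k => if h : (k - 8) / 2 < Group.rank G then (e ⟨(k - 8) / 2, h⟩ : G) else 1, ?_, ?_⟩
  · have h2 : (8 + 2 * Group.rank G - 2 - 8) / 2 < Group.rank G := by omega
    simp only [h2, dif_pos]
    intro h
    apply h1
    rw [← h]
    exact (e _).2
  · rw [eq_top_iff, ← hgen, Subgroup.closure_le]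
    intro s hs
    apply Subgroup.subset_closure
    obtain ⟨i, hi⟩ := e.surjective ⟨s, hs⟩
    refine ⟨8 + 2 * i, by omega, by omega, by omega, ?_⟩
    have h2 : (8 + 2 * (i : ℕ) - 8) / 2 = i := by omega
    have h3 : (8 + 2 * (i : ℕ) - 8) / 2 < Group.rank G := by omega
    simp only [h2]
    simp [hi]

theorem represents [Finite G] (hr : 1 ≤ Group.rank G) :
    Represents G (Nat.card G * (2 * Group.rank G + 8)) := by
  classical
  obtain ⟨x, hx, hgen⟩ := exists_voltage hr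
  have := Fintype.ofFinite G
  refine ⟨G × Fin (8 + 2 * Group.rank G), inferInstance, X _ x, ?_, ?_, ?_⟩
  · rw [Fintype.card_prod, Fintype.card_fin, Nat.card_eq_fintype_card, add_comm]
  · exact degree _ x (by omega) (by omega) hx
  · exact rep (by omega) (by omega) hx hgen

/-- **Result.** For every `ε > 0` there is `D` such that every finite group `G` with `d(G) > D` has
`v³(G) < (2 + ε) |G| d(G)`; in fact `v³(G) ≤ |G| (2 d(G) + 8)` for every nontrivial finite group. -/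
theorem result :
    (∀ (G : Type) [Group G] [Finite G], 1 ≤ Group.rank G →
      ∃ N : ℕ, IsLeast {N | Represents G N} N ∧ N ≤ Nat.card G * (2 * Group.rank G + 8)) ∧
    (∀ ε : ℝ, 0 < ε → ∃ D : ℕ, ∀ (G : Type) [Group G] [Finite G], D < Group.rank G →
      ∃ N : ℕ, IsLeast {N | Represents G N} N ∧
        (N : ℝ) < (2 + ε) * Nat.card G * Group.rank G) := by
  have key : ∀ (G : Type) [Group G] [Finite G], 1 ≤ Group.rank G →
      ∃ N : ℕ, IsLeast {N | Represents G N} N ∧ N ≤ Nat.card G * (2 * Group.rank G + 8) := by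
    intro G _ _ hr
    classical
    have h : ∃ N, Represents G N := ⟨_, represents hr⟩
    exact ⟨Nat.find h, ⟨Nat.find_spec h, fun m hm => Nat.find_min' h hm⟩,
      Nat.find_min' h (represents hr)⟩
  refine ⟨fun G _ _ hr => key G hr, ?_⟩
  intro ε hε
  obtain ⟨D, hD⟩ := exists_nat_gt (8 / ε)
  refine ⟨D, ?_⟩
  intro G _ _ hG
  obtain ⟨N, hN, hle⟩ := key G (by omega)
  refine ⟨N, hN, ?_⟩
  have h1 : (N : ℝ) ≤ Nat.card G * (2 * Group.rank G + 8) := by exact_mod_cast hle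
  have h2 : (0 : ℝ) < Nat.card G := by exact_mod_cast Nat.card_pos
  have h3 : (D : ℝ) < Group.rank G := by exact_mod_cast hG
  have h4 : 8 < ε * Group.rank G := by
    have : 8 / ε < Group.rank G := hD.trans h3
    rw [div_lt_iff₀ hε] at this
    linarith
  nlinarith

end Pool.Agent.Results.MP_b549f0_co.TwoPlusEpsilon
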